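import Pool.Agent.H820.T6.Stm

/-!
# T6 CHART: the charts of the model
-/

set_option autoImplicit false

namespace Pool.Agent.H618.T6Chart

open Pool.Agent.H820.T6
open Matrix Complex ComplexConjugate
open scoped Manifold ContDiff

noncomputable section

section

variable {W : Type} [NormedAddCommGroup W] [NormedSpace ℝ W]

theorem cconj {f : W → ℂ} {S : Set W} (hf : ContDiffOn ℝ ∞ f S) :
    ContDiffOn ℝ ∞ (fun w => conj (f w)) S :=
  Complex.conjCLE.contDiff.comp_contDiffOn hf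

theorem comp {n : ℕ} {f : W → Fin n → ℂ} {S : Set W} (hf : ContDiffOn ℝ ∞ f S) (k : Fin n) :
    ContDiffOn ℝ ∞ (fun w => f w k) S :=
  contDiffOn_pi.1 hf k

theorem cX {f : W → Z3} {S : Set W} (hf : ContDiffOn ℝ ∞ f S) (a b : Fin 4) :
    ContDiffOn ℝ ∞ (fun w => X (f w) a b) S := by
  have h := fun k => comp hf k
  have h' := fun k => cconj (comp hf k)
  fin_cases a <;> fin_cases b <;> simp only [X, Matrix.of_apply, Matrix.cons_val', Fin.zero_eta,
    Fin.mk_one, Fin.reduceFinMk, Matrix.cons_val] <;>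
    first
    | exact contDiffOn_const
    | exact h _
    | exact h' _
    | exact (h _).neg
    | exact (h' _).neg

theorem cmul {f : W → Z3} {g : W → C4} {S : Set W} (hf : ContDiffOn ℝ ∞ f S)
    (hg : ContDiffOn ℝ ∞ g S) : ContDiffOn ℝ ∞ (fun w => X (f w) *ᵥ g w) S := by
  rw [contDiffOn_pi]
  intro a
  have : (fun w => (X (f w) *ᵥ g w) a) = fun w => ∑ b, X (f w) a b * g w b := rfl
  rw [this]
  exact ContDiffOn.sum fun b _ => (cX hf a b).mul (comp hg b)

theorem cnn {g : W → C4} {S : Set W} (hg : ContDiffOn ℝ ∞ g S) :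
    ContDiffOn ℝ ∞ (fun w => nn (g w)) S := by
  unfold nn
  exact ContDiffOn.sum fun b _ => (comp hg b).mul (cconj (comp hg b))

theorem cdiv {f g : W → ℂ} {S : Set W} (hf : ContDiffOn ℝ ∞ f S) (hg : ContDiffOn ℝ ∞ g S)
    (h0 : ∀ w ∈ S, g w ≠ 0) : ContDiffOn ℝ ∞ (fun w => f w / g w) S := by
  simp only [div_eq_mul_inv]
  exact hf.mul (hg.inv h0)

theorem cY {f g : W → C4} {S : Set W} (hf : ContDiffOn ℝ ∞ f S) (hg : ContDiffOn ℝ ∞ g S)
    (h0 : ∀ w ∈ S, nn (g w) ≠ 0) : ContDiffOn ℝ ∞ (fun w => Y (f w) (g w)) S := by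
  rw [contDiffOn_pi]
  have h := fun k => comp hf k
  have h' := fun k => cconj (comp hf k)
  have e := fun k => comp hg k
  have e' := fun k => cconj (comp hg k)
  intro a
  fin_cases a
  · exact cdiv ((((h 0).mul (e' 1)).sub ((h 1).mul (e' 0))).add ((h' 2).mul (e 3)) |>.sub
      ((h' 3).mul (e 2))) (cnn hg) h0
  · exact cdiv ((((h 0).mul (e' 2)).sub ((h 2).mul (e' 0))).sub ((h' 1).mul (e 3)) |>.add
      ((h' 3).mul (e 1))) (cnn hg) h0
  · exact cdiv ((((h 0).mul (e' 3)).sub ((h 3).mul (e' 0))).add ((h' 1).mul (e 2)) |>.sub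
      ((h' 2).mul (e 1))) (cnn hg) h0

theorem cfw {s h : Z3 → C4} (hs : ContDiff ℝ ∞ s) (hh : ContDiff ℝ ∞ h) (j : Fin 4)
    {f g : W → Z3} {S : Set W} (hf : ContDiffOn ℝ ∞ f S) (hg : ContDiffOn ℝ ∞ g S) :
    ContDiffOn ℝ ∞ (fun w => fw s h j (f w) (g w)) S := by
  rw [contDiffOn_pi]
  intro k
  exact (comp (cmul hg (hs.comp_contDiffOn hf)) (j.succAbove k)).add
    (comp (hh.comp_contDiffOn hf) (j.succAbove k))

theorem cfull {s h : Z3 → C4} (hs : ContDiff ℝ ∞ s) (hh : ContDiff ℝ ∞ h) (j : Fin 4)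
    {f g : W → Z3} {S : Set W} (hf : ContDiffOn ℝ ∞ f S) (hg : ContDiffOn ℝ ∞ g S)
    (h0 : ∀ w ∈ S, s (f w) j ≠ 0) : ContDiffOn ℝ ∞ (fun w => full s h j (f w) (g w)) S := by
  have hs' := hs.comp_contDiffOn hf
  have hh' := hh.comp_contDiffOn hf
  rw [contDiffOn_pi]
  intro a
  rcases Fin.eq_self_or_eq_succAbove j a with rfl | ⟨k, rfl⟩
  · have : (fun w => full s h a (f w) (g w) a) = fun w =>
        (s (f w) ⬝ᵥ h (f w) - ∑ k, s (f w) (a.succAbove k) * g w k) / s (f w) a := by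
      funext w
      exact Fin.insertNth_apply_same (α := fun _ => ℂ) _ _ _
    rw [this]
    refine cdiv (ContDiffOn.sub ?_ ?_) (comp hs' a) h0
    · show ContDiffOn ℝ ∞ (fun w => ∑ b, s (f w) b * h (f w) b) S
      exact ContDiffOn.sum fun b _ => (comp hs' b).mul (comp hh' b)
    · exact ContDiffOn.sum fun b _ => (comp hs' _).mul (comp hg b)
  · have : (fun w => full s h j (f w) (g w) (j.succAbove k)) = fun w => g w k := by
      funext w
      exact Fin.insertNth_apply_succAbove (α := fun _ => ℂ) _ _ _ _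
    rw [this]
    exact comp hg k

theorem cbw (halg : S_alg) {s h : Z3 → C4} (hs : ContDiff ℝ ∞ s) (hh : ContDiff ℝ ∞ h) (j : Fin 4)
    {f g : W → Z3} {S : Set W} (hf : ContDiffOn ℝ ∞ f S) (hg : ContDiffOn ℝ ∞ g S)
    (h0 : ∀ w ∈ S, s (f w) j ≠ 0) : ContDiffOn ℝ ∞ (fun w => bw s h j (f w) (g w)) S := by
  apply cY ((cfull hs hh j hf hg h0).sub (hh.comp_contDiffOn hf)) (hs.comp_contDiffOn hf)
  intro w hw
  apply halg.2.2.2.2.1
  intro h1
  exact h0 w hw (congrFun h1 j)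

end

theorem t_chart : S_alg → S_block → S_chart := by
  intro halg hblock r q s h hs hh
  have hs' : ContDiff ℝ ∞ s := hs.restrict_scalars ℝ
  have hopen : ∀ j : Fin 4, IsOpen {p : Vt r q | s p.1 j ≠ 0} := by
    intro j
    have : Continuous (fun p : Vt r q => s p.1 j) :=
      (continuous_apply j).comp (hs'.continuous.comp continuous_fst)
    exact isOpen_ne_fun this continuous_const
  have c1 : ∀ S : Set (Vt r q), ContDiffOn ℝ ∞ (fun p : Vt r q => p.1) S :=
    fun S => contDiff_fst.contDiffOn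
  have c2 : ∀ (i : Fin r) (S : Set (Vt r q)), ContDiffOn ℝ ∞ (fun p : Vt r q => p.2.1 i) S :=
    fun i S => contDiffOn_pi.1 (contDiff_fst.comp contDiff_snd).contDiffOn i
  have c3 : ∀ S : Set (Vt r q), ContDiffOn ℝ ∞ (fun p : Vt r q => p.2.2) S :=
    fun S => (contDiff_snd.comp contDiff_snd).contDiffOn
  have s1 : ∀ j, ContDiffOn ℝ ∞ (fun p : Vt r q =>
      ((p.1, (fun i => fw s (h i) j p.1 (p.2.1 i), p.2.2)) : Vt r q)) {p | s p.1 j ≠ 0} := by
    intro j
    refine (c1 _).prodMk (ContDiffOn.prodMk ?_ (c3 _))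
    rw [contDiffOn_pi]
    intro i
    exact cfw hs' (hh i) j (c1 _) (c2 i _)
  have s2 : ∀ j, ContDiffOn ℝ ∞ (fun p : Vt r q =>
      ((p.1, (fun i => bw s (h i) j p.1 (p.2.1 i), p.2.2)) : Vt r q)) {p | s p.1 j ≠ 0} := by
    intro j
    refine (c1 _).prodMk (ContDiffOn.prodMk ?_ (c3 _))
    rw [contDiffOn_pi]
    intro i
    exact cbw halg hs' (hh i) j (c1 _) (c2 i _) (fun w hw => hw)
  refine ⟨fun j =>
    { toFun := fun p => (p.1, (fun i => fw s (h i) j p.1 (p.2.1 i), p.2.2))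
      invFun := fun p => (p.1, (fun i => bw s (h i) j p.1 (p.2.1 i), p.2.2))
      source := {p | s p.1 j ≠ 0}
      target := {p | s p.1 j ≠ 0}
      map_source' := fun p hp => hp
      map_target' := fun p hp => hp
      left_inv' := ?_
      right_inv' := ?_
      open_source := hopen j
      open_target := hopen j
      continuousOn_toFun := (s1 j).continuousOn
      continuousOn_invFun := (s2 j).continuousOn }, fun j => rfl, fun j => rfl, fun j p => rfl,
      fun j p => rfl, s1, s2⟩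
  · intro p hp
    refine Prod.ext rfl (Prod.ext ?_ rfl)
    funext i
    exact (hblock s (h i) j p.1 hp).1 _
  · intro p hp
    refine Prod.ext rfl (Prod.ext ?_ rfl)
    funext i
    exact (hblock s (h i) j p.1 hp).2.1 _

end

end Pool.Agent.H618.T6Chart
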