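import Pool.Agent.H820.T6.Stm

/-!
# T6 QU: complex structures on quotients, with several charts

An adaptation of the library file `Pool/Graph/R_seed8/W305/NC/Qu.lean`, where there is one global
chart.
-/

set_option autoImplicit false
set_option linter.style.haveILetI false
set_option linter.unusedSectionVars false

namespace Pool.Agent.H618.T6Qu

open Set
open scoped Manifold ContDiff

section quotient

variable {V F E H M : Type} [NormedAddCommGroup V] [NormedSpace ℝ V] [NormedAddCommGroup F]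
  [NormedSpace ℂ F] [NormedAddCommGroup E] [NormedSpace ℝ E] [TopologicalSpace H]
  {I : ModelWithCorners ℝ E H} [TopologicalSpace M] [ChartedSpace H M] {ι : Type}
  (Φ : ι → OpenPartialHomeomorph V F) (π : V → M) (hl : IsLocalDiffeomorph 𝓘(ℝ, V) I ∞ π)

/-- the local diffeomorphism -/
noncomputable def pd (x : V) : PartialDiffeomorph 𝓘(ℝ, V) I V M ∞ := (hl x).choose

theorem mem_pd (x : V) : x ∈ (pd π hl x).source := (hl x).choose_spec.1

theorem eq_pd (x : V) {y : V} (hy : y ∈ (pd π hl x).source) : pd π hl x y = π y :=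
  ((hl x).choose_spec.2 hy).symm

/-- the charts -/
noncomputable def ch (x : V) (i : ι) : OpenPartialHomeomorph M F :=
  (pd π hl x).toOpenPartialHomeomorph.symm.trans (Φ i)

theorem mem_ch_source (x : V) (i : ι) (m : M) : m ∈ (ch Φ π hl x i).source ↔
    m ∈ (pd π hl x).target ∧ (pd π hl x).toPartialEquiv.symm m ∈ (Φ i).source := Iff.rfl

theorem mem_ch_target (x : V) (i : ι) (z : F) : z ∈ (ch Φ π hl x i).target ↔
    z ∈ (Φ i).target ∧ (Φ i).symm z ∈ (pd π hl x).source := Iff.rfl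

theorem ch_apply (x : V) (i : ι) (m : M) :
    ch Φ π hl x i m = Φ i ((pd π hl x).toPartialEquiv.symm m) := rfl

theorem ch_symm (x : V) (i : ι) (z : F) :
    (ch Φ π hl x i).symm z = pd π hl x ((Φ i).symm z) := rfl

variable (hcov : ∀ v, ∃ i, v ∈ (Φ i).source)

theorem symm_pd (x : V) : (pd π hl x).toPartialEquiv.symm (π x) = x := by
  rw [← eq_pd π hl x (mem_pd π hl x)]
  exact (pd π hl x).toPartialEquiv.left_inv (mem_pd π hl x)

/-- the charted space -/
@[reducible] noncomputable def chs (hs : Function.Surjective π) : ChartedSpace F M where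
  atlas := {e | ∃ x i, e = ch Φ π hl x i}
  chartAt m := ch Φ π hl (hs m).choose (hcov (hs m).choose).choose
  mem_chart_source m := by
    rw [mem_ch_source]
    have h1 := mem_pd π hl (hs m).choose
    have h2 := (pd π hl (hs m).choose).toPartialEquiv.map_source h1
    have h3 := eq_pd π hl _ h1
    have h4 := symm_pd π hl (hs m).choose
    rw [(hs m).choose_spec] at h3 h4
    change (pd π hl (hs m).choose) (hs m).choose ∈ _ at h2
    rw [h3] at h2
    refine ⟨h2, ?_⟩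
    rw [h4]
    exact (hcov (hs m).choose).choose_spec
  chart_mem_atlas m := ⟨_, _, rfl⟩

theorem chs_chartAt (hs : Function.Surjective π) (m : M) :
    @chartAt F _ M _ (chs Φ π hl hcov hs) m =
      ch Φ π hl (hs m).choose (hcov (hs m).choose).choose := rfl

/-- the transition maps -/
theorem tr_contDiffOn (T : Set (V → V)) (hTc : ∀ g ∈ T, Continuous g)
    (hT : ∀ g ∈ T, ∀ i j, ContDiffOn ℂ ∞ (fun z => Φ j (g ((Φ i).symm z)))
      {z | z ∈ (Φ i).target ∧ g ((Φ i).symm z) ∈ (Φ j).source})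
    (hπ : ∀ x y, π x = π y ↔ ∃ g ∈ T, g x = y) (x y : V) (i j : ι) :
    ContDiffOn ℂ ∞ ((ch Φ π hl x i).symm.trans (ch Φ π hl y j))
      ((ch Φ π hl x i).symm.trans (ch Φ π hl y j)).source := by
  intro z0 hz0
  rw [OpenPartialHomeomorph.trans_source] at hz0
  obtain ⟨hz1, hz2⟩ := hz0
  rw [OpenPartialHomeomorph.symm_source, mem_ch_target] at hz1
  rw [mem_preimage, mem_ch_source, ch_symm] at hz2
  obtain ⟨hz1a, hz1b⟩ := hz1
  obtain ⟨hz2a, hz2b⟩ := hz2
  -- the point `w0` and the point `v0`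
  obtain ⟨w0, hw0⟩ : ∃ w0, w0 = (Φ i).symm z0 := ⟨_, rfl⟩
  rw [← hw0] at hz2a hz2b hz1b
  obtain ⟨v0, hv0⟩ : ∃ v0, v0 = (pd π hl y).toPartialEquiv.symm (pd π hl x w0) := ⟨_, rfl⟩
  rw [← hv0] at hz2b
  have hv1 : v0 ∈ (pd π hl y).source := by
    rw [hv0]
    exact (pd π hl y).toPartialEquiv.map_target hz2a
  have hv2 : pd π hl y v0 = pd π hl x w0 := by
    rw [hv0]
    exact (pd π hl y).toPartialEquiv.right_inv hz2a
  have hvw : π w0 = π v0 := by
    rw [← eq_pd π hl x hz1b, ← eq_pd π hl y hv1, hv2]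
  obtain ⟨g, hg, hgw⟩ := (hπ w0 v0).1 hvw
  have hcs : ContinuousAt (Φ i).symm z0 := (Φ i).continuousAt_symm hz1a
  have hgc : ContinuousAt (fun z => g ((Φ i).symm z)) z0 :=
    (hTc g hg).continuousAt.comp hcs
  have hg0 : g ((Φ i).symm z0) = v0 := by rw [← hw0, hgw]
  have e1 : ∀ᶠ z in nhds z0, (Φ i).symm z ∈ (pd π hl x).source :=
    hcs.eventually_mem ((pd π hl x).open_source.mem_nhds (by
      rw [← hw0]
      exact hz1b))
  have e2 : ∀ᶠ z in nhds z0, g ((Φ i).symm z) ∈ (pd π hl y).source :=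
    hgc.eventually_mem ((pd π hl y).open_source.mem_nhds (by
      rw [hg0]
      exact hv1))
  have e3 : ∀ᶠ z in nhds z0, z ∈ (Φ i).target ∧ g ((Φ i).symm z) ∈ (Φ j).source := by
    have e4 : ∀ᶠ z in nhds z0, z ∈ (Φ i).target := (Φ i).open_target.mem_nhds hz1a
    have e5 : ∀ᶠ z in nhds z0, g ((Φ i).symm z) ∈ (Φ j).source :=
      hgc.eventually_mem ((Φ j).open_source.mem_nhds (by
        rw [hg0]
        exact hz2b))
    filter_upwards [e4, e5] with z h3 h4
    exact ⟨h3, h4⟩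
  have hev : ∀ᶠ z in nhds z0, ((ch Φ π hl x i).symm.trans (ch Φ π hl y j)) z =
      Φ j (g ((Φ i).symm z)) := by
    filter_upwards [e1, e2] with z h3 h4
    change Φ j ((pd π hl y).toPartialEquiv.symm (pd π hl x ((Φ i).symm z))) = _
    congr 1
    have h5 : pd π hl x ((Φ i).symm z) = pd π hl y (g ((Φ i).symm z)) := by
      rw [eq_pd π hl x h3, eq_pd π hl y h4]
      exact (hπ _ _).2 ⟨g, hg, rfl⟩
    rw [h5]
    exact (pd π hl y).toPartialEquiv.left_inv h4
  have h6 : ContDiffAt ℂ ∞ (fun z => Φ j (g ((Φ i).symm z))) z0 :=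
    (hT g hg i j).contDiffAt e3
  exact (h6.congr_of_eventuallyEq hev).contDiffWithinAt

include hl in
/-- **Complex structures on quotients.** -/
theorem quotient [IsManifold I ∞ M] (hcov : ∀ v, ∃ i, v ∈ (Φ i).source)
    (hΦ : ∀ i, ContDiffOn ℝ ∞ (Φ i) (Φ i).source)
    (hΦ' : ∀ i, ContDiffOn ℝ ∞ (Φ i).symm (Φ i).target)
    (T : Set (V → V)) (hTc : ∀ g ∈ T, Continuous g)
    (hT : ∀ g ∈ T, ∀ i j, ContDiffOn ℂ ∞ (fun z => Φ j (g ((Φ i).symm z)))
      {z | z ∈ (Φ i).target ∧ g ((Φ i).symm z) ∈ (Φ j).source})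
    (hπ : ∀ x y, π x = π y ↔ ∃ g ∈ T, g x = y) (hs : Function.Surjective π) :
    ∃ (N : Type) (_ : TopologicalSpace N) (_ : ChartedSpace F N),
      IsManifold 𝓘(ℂ, F) ∞ N ∧ Nonempty (Diffeomorph I 𝓘(ℝ, F) M N ∞) := by
  letI : ChartedSpace F M := chs Φ π hl hcov hs
  have hC : IsManifold 𝓘(ℂ, F) ∞ M := by
    refine isManifold_of_contDiffOn 𝓘(ℂ, F) ∞ M ?_
    rintro _ _ ⟨x, i, rfl⟩ ⟨y, j, rfl⟩
    have h := tr_contDiffOn Φ π hl T hTc hT hπ x y i j
    simpa using h
  haveI hR : IsManifold 𝓘(ℝ, F) ∞ M := by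
    refine isManifold_of_contDiffOn 𝓘(ℝ, F) ∞ M ?_
    rintro _ _ ⟨x, i, rfl⟩ ⟨y, j, rfl⟩
    have h := (tr_contDiffOn Φ π hl T hTc hT hπ x y i j).restrict_scalars ℝ
    simpa using h
  refine ⟨M, inferInstance, inferInstance, hC, ⟨⟨Equiv.refl M, fun m => ?_, fun m => ?_⟩⟩⟩
  · change ContMDiffAt I 𝓘(ℝ, F) ∞ (fun m : M => m) m
    rw [contMDiffAt_iff_target]
    refine ⟨continuousAt_id, ?_⟩
    have h0 : m ∈ (ch Φ π hl (hs m).choose (hcov (hs m).choose).choose).source :=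
      mem_chart_source F m
    rw [mem_ch_source] at h0
    obtain ⟨h1, h1'⟩ := h0
    have h2 : ContMDiffAt I 𝓘(ℝ, V) ∞ ((pd π hl (hs m).choose).toPartialEquiv.symm) m :=
      (pd π hl (hs m).choose).contMDiffOn_invFun.contMDiffAt
        ((pd π hl (hs m).choose).open_target.mem_nhds h1)
    have h3 : ContMDiffAt 𝓘(ℝ, V) 𝓘(ℝ, F) ∞ (Φ (hcov (hs m).choose).choose)
        ((pd π hl (hs m).choose).toPartialEquiv.symm m) :=
      ((hΦ _).contDiffAt ((Φ _).open_source.mem_nhds h1')).contMDiffAt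
    exact h3.comp m h2
  · change ContMDiffAt 𝓘(ℝ, F) I ∞ (fun m : M => m) m
    have h0 : m ∈ (ch Φ π hl (hs m).choose (hcov (hs m).choose).choose).source :=
      mem_chart_source F m
    rw [mem_ch_source] at h0
    have h1 : ContMDiffAt 𝓘(ℝ, F) 𝓘(ℝ, F) ∞ (extChartAt 𝓘(ℝ, F) m) m := contMDiffAt_extChartAt
    have ht : extChartAt 𝓘(ℝ, F) m m ∈ (Φ (hcov (hs m).choose).choose).target := by
      change Φ (hcov (hs m).choose).choose
        ((pd π hl (hs m).choose).toPartialEquiv.symm m) ∈ _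
      exact (Φ (hcov (hs m).choose).choose).map_source h0.2
    have h2 : ContMDiffAt 𝓘(ℝ, F) 𝓘(ℝ, V) ∞ (Φ (hcov (hs m).choose).choose).symm
        (extChartAt 𝓘(ℝ, F) m m) :=
      ((hΦ' _).contDiffAt ((Φ _).open_target.mem_nhds ht)).contMDiffAt
    have h3 : ContMDiffAt 𝓘(ℝ, F) I ∞
        (fun m' => π ((Φ (hcov (hs m).choose).choose).symm (extChartAt 𝓘(ℝ, F) m m'))) m :=
      (hl.contMDiff.contMDiffAt).comp m (h2.comp m h1)
    refine h3.congr_of_eventuallyEq ?_
    filter_upwards [(chartAt F m).open_source.mem_nhds (mem_chart_source F m)] with m' hm'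
    rw [chs_chartAt, mem_ch_source] at hm'
    change m' = π ((Φ (hcov (hs m).choose).choose).symm (Φ (hcov (hs m).choose).choose
      ((pd π hl (hs m).choose).toPartialEquiv.symm m')))
    rw [(Φ (hcov (hs m).choose).choose).left_inv hm'.2,
      ← eq_pd π hl _ ((pd π hl (hs m).choose).toPartialEquiv.map_target hm'.1)]
    exact ((pd π hl (hs m).choose).toPartialEquiv.right_inv hm'.1).symm

end quotient

theorem t_qu : Pool.Agent.H820.T6.S_qu := by
  intro V F E H M _ _ _ _ _ _ _ I _ _ _ ι Φ π hl hcov hΦ hΦ' T hTc hT hπ hs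
  exact quotient Φ π hl hcov hΦ hΦ' T hTc hT hπ hs

end Pool.Agent.H618.T6Qu
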